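import Pool.Agent.L7h67.MP.Main

set_option autoImplicit false

/-! # Changes of the values of joint patterns -/

namespace Pool.Agent.L7h67.MP

open Finset Pool.Agent.R836.PP PowerSeries
open Pool.Agent.N493.PD (Ft OnePass)

theorem class_card (P : ℕ → Prop) [DecidablePred P] (b ρ x : ℕ) (hx : 2 ^ b ≤ x) :
    ((range (x + 1)).filter fun n => n % 2 ^ b = ρ % 2 ^ b ∧ P n).card =
      ((range ((x - ρ % 2 ^ b) / 2 ^ b + 1)).filter fun m => P (2 ^ b * m + ρ % 2 ^ b)).card := by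
  have hb : 0 < 2 ^ b := by positivity
  have hρ : ρ % 2 ^ b < 2 ^ b := Nat.mod_lt _ hb
  have h1 : ((range (x + 1)).filter fun n => n % 2 ^ b = ρ % 2 ^ b ∧ P n) =
      ((range ((x - ρ % 2 ^ b) / 2 ^ b + 1)).filter fun m => P (2 ^ b * m + ρ % 2 ^ b)).image
        (fun m => 2 ^ b * m + ρ % 2 ^ b) := by
    ext n
    rw [mem_filter, mem_image, mem_range]
    constructor
    · rintro ⟨h1, h2, h3⟩
      have h4 := Nat.div_add_mod n (2 ^ b)
      rw [h2] at h4
      refine ⟨n / 2 ^ b, ?_, h4⟩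
      rw [mem_filter, mem_range, h4]
      refine ⟨?_, h3⟩
      rw [Nat.lt_succ_iff, Nat.le_div_iff_mul_le hb, mul_comm]
      omega
    · rintro ⟨m, h1, rfl⟩
      rw [mem_filter, mem_range, Nat.lt_succ_iff, Nat.le_div_iff_mul_le hb, mul_comm] at h1
      refine ⟨by omega, ?_, h1.2⟩
      rw [Nat.mul_add_mod, Nat.mod_mod]
  rw [h1]
  apply card_image_of_injective
  intro m m' h
  simp only at h
  have h2 : 2 ^ b * m = 2 ^ b * m' := by omega
  exact Nat.eq_of_mul_eq_mul_left hb h2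

/-- **changes of the values of the joint patterns** -/
theorem changesT (τ b T A L K h' : ℕ) (hh : 0 < h') :
    ∃ X0 : ℕ, ∀ (c : Tr T A L → ZMod 2), c ≠ 0 → Supp τ c → ∀ (ρ : ℕ) (κ : ZMod 2) (x : ℕ),
      X0 ≤ x →
        Real.sqrt x * (Real.log (Real.log x)) ^ K / Real.log x ≤
          (((range (x + 1)).filter fun n => n % 2 ^ b = ρ % 2 ^ b ∧
            wT c (fun t k => coeff k (Ft t)) n = κ ∧
            wT c (fun t k => coeff k (Ft t)) (n + 2 ^ b * h') = κ + 1).card : ℝ) := by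
  classical
  obtain ⟨k, hk⟩ : ∃ k, 2 ^ b * h' < 2 ^ k := ⟨2 ^ b * h', Nat.lt_two_pow_self⟩
  have hh2 : 0 < 2 ^ b * h' := by positivity
  obtain ⟨X0, hX0⟩ := mainT τ b T A (2 ^ A * 2 ^ k + L) 0 1 (K + 1)
  obtain ⟨X1, hX1⟩ := ev_loglog 4
  obtain ⟨X2, hX2g, hX2⟩ := ev_log (h' + 1) (by positivity)
  refine ⟨max (max X0 (2 ^ b)) (max X1 X2), fun c hc hs ρ κ x hx => ?_⟩
  simp only [max_le_iff] at hx
  obtain ⟨⟨hx0, hxb⟩, hx1, hx2⟩ := hx
  obtain ⟨c', hc'0, hc's, hc'⟩ := exists_diffT τ c hc hs k 0 (2 ^ b * h') (by positivity) hk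
    (by omega)
  have g1 := hX0 c' hc'0 hc's (fun _ _ => 0) (fun z => z.elim0) (fun _ => 0) ρ 1 x hx0
  have g2 := hX1 x hx1
  have g3 := log_pos_of (x := x) (by linarith)
  have g4 := hX2 x hx2
  set W : ℕ → ZMod 2 := wT c (fun t k => coeff k (Ft t)) with hW
  have hW' : ∀ n, wT c' (fun t k => coeff k (Ft t)) n = W n + W (n + 2 ^ b * h') := by
    intro n
    rw [hc' _ n, add_zero]
  set U := (range (x + 1)).filter fun n => n % 2 ^ b = ρ % 2 ^ b ∧ W n = 0 ∧
    W (n + 2 ^ b * h') = 1 with hU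
  set D := (range (x + 1)).filter fun n => n % 2 ^ b = ρ % 2 ^ b ∧ W n = 1 ∧
    W (n + 2 ^ b * h') = 0 with hD
  have h3 : ((range (x + 1)).filter fun n => n % 2 ^ b = ρ % 2 ^ b ∧
      wT c' (fun t k => coeff k (Ft t)) n + 0 = 1).card ≤ U.card + D.card := by
    refine le_trans (card_le_card ?_) (card_union_le U D)
    intro n hn
    rw [mem_filter, hW', add_zero] at hn
    rw [mem_union, hU, hD, mem_filter, mem_filter]
    obtain ⟨h4, h4', h5⟩ := hn
    rcases zmod_two (W n) with h6 | h6 <;> rcases zmod_two (W (n + 2 ^ b * h')) with h7 | h7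
    · rw [h6, h7] at h5
      exact absurd h5 (by decide)
    · exact Or.inl ⟨h4, h4', h6, h7⟩
    · exact Or.inr ⟨h4, h4', h6, h7⟩
    · rw [h6, h7] at h5
      exact absurd h5 (by decide)
  have h3' : (((range (x + 1)).filter fun n => n % 2 ^ b = ρ % 2 ^ b ∧
      wT c' (fun t k => coeff k (Ft t)) n + 0 = 1).card : ℝ) ≤ U.card + D.card := by
    exact_mod_cast h3
  have h4 := updown (fun m => W (2 ^ b * m + ρ % 2 ^ b)) ((x - ρ % 2 ^ b) / 2 ^ b + 1) h'
  have eU : U.card = ((range ((x - ρ % 2 ^ b) / 2 ^ b + 1)).filter fun m =>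
      W (2 ^ b * m + ρ % 2 ^ b) = 0 ∧ W (2 ^ b * (m + h') + ρ % 2 ^ b) = 1).card := by
    rw [hU, class_card (fun n => W n = 0 ∧ W (n + 2 ^ b * h') = 1) b ρ x hxb]
    congr 1
    ext m
    rw [mem_filter, mem_filter]
    have : 2 ^ b * m + ρ % 2 ^ b + 2 ^ b * h' = 2 ^ b * (m + h') + ρ % 2 ^ b := by ring
    rw [this]
  have eD : D.card = ((range ((x - ρ % 2 ^ b) / 2 ^ b + 1)).filter fun m =>
      W (2 ^ b * m + ρ % 2 ^ b) = 1 ∧ W (2 ^ b * (m + h') + ρ % 2 ^ b) = 0).card := by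
    rw [hD, class_card (fun n => W n = 1 ∧ W (n + 2 ^ b * h') = 0) b ρ x hxb]
    congr 1
    ext m
    rw [mem_filter, mem_filter]
    have : 2 ^ b * m + ρ % 2 ^ b + 2 ^ b * h' = 2 ^ b * (m + h') + ρ % 2 ^ b := by ring
    rw [this]
  rw [← eU, ← eD, abs_le] at h4
  have h5 : (U.card : ℝ) - D.card ≤ h' := by exact_mod_cast h4.2
  have h6 : -(h' : ℝ) ≤ (U.card : ℝ) - D.card := by exact_mod_cast h4.1
  set lam := Real.log (Real.log x) with hlam
  have e1 : Real.sqrt x * lam ^ (K + 1) / Real.log x =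
      lam * (Real.sqrt x * lam ^ K / Real.log x) := by
    rw [pow_succ]
    ring
  set Z := Real.sqrt x * lam ^ K / Real.log x with hZ
  have hZh : (h' : ℝ) ≤ Z := by
    rw [hZ, le_div_iff₀ (by linarith)]
    have e2 : (1 : ℝ) ≤ lam ^ K := one_le_pow₀ (by linarith)
    have e3 : Real.sqrt x ≤ Real.sqrt x * lam ^ K :=
      le_mul_of_one_le_right (Real.sqrt_nonneg _) e2
    nlinarith
  have hZ0 : 0 ≤ Z := by
    have : (0 : ℝ) ≤ h' := by positivity
    linarith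
  rw [e1] at g1
  have e5 : 4 * Z ≤ lam * Z := mul_le_mul_of_nonneg_right g2 hZ0
  rcases zmod_two κ with hκ | hκ
  · subst hκ
    rw [zero_add]
    show Z ≤ (U.card : ℝ)
    linarith
  · subst hκ
    have : (1 : ZMod 2) + 1 = 0 := by decide
    rw [this]
    show Z ≤ (D.card : ℝ)
    linarith

end Pool.Agent.L7h67.MP
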