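import Pool.Agent.L7h67.MP.Low

set_option autoImplicit false

/-! # Joint patterns of several multipartition functions at the dilates `2 ^ a n`: counting -/

namespace Pool.Agent.L7h67.MP

open Finset Pool.Agent.R836.PP PowerSeries
open Pool.Agent.H397R2.PP Pool.Agent.H397R2.PP.TH Pool.Agent.H307R2.OP
open Pool.Agent.N493.PD (Ft)
open Pool.Agent.N493.PE (bad bad_card)

/-- triples `(t, a, i)` -/
abbrev Tr (T A L : ℕ) : Type := Fin (T + 1) × Fin (A + 1) × Fin (L + 1)

/-- the joint pattern -/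
noncomputable def wT {T A L : ℕ} (c : Tr T A L → ZMod 2) (φ : ℕ → ℕ → ZMod 2) (n : ℕ) : ZMod 2 :=
  ∑ x : Tr T A L, c x * φ x.1 (2 ^ (x.2.1 : ℕ) * n + x.2.2)

/-- the dilated set -/
def Sd (S : ℕ → Prop) (a n : ℕ) : Prop := ∃ s, n = 2 ^ a * s ∧ S s

open Classical in
theorem cntF_dilate (S : ℕ → Prop) (a n i : ℕ) (h : ∀ s, S s → n < s → ¬ 2 ^ a * s ≤ 2 ^ a * n + i) :
    cntF (Sd S a) (2 ^ a * n + i) = (cntF S n).image fun s => 2 ^ a * s := by
  have h4 : 0 < 2 ^ a := by positivity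
  ext b
  unfold cntF Sd
  simp only [mem_filter, mem_range, mem_image]
  constructor
  · rintro ⟨h1, s, rfl, hs⟩
    refine ⟨s, ⟨?_, hs⟩, rfl⟩
    by_contra hcon
    exact h s hs (by omega) (by omega)
  · rintro ⟨s, ⟨h1, hs⟩, rfl⟩
    have : 2 ^ a * s ≤ 2 ^ a * n := Nat.mul_le_mul_left _ (by omega)
    exact ⟨by omega, s, rfl, hs⟩

theorem Sx_dilate (P : ℕ → Prop) (e a n : ℕ) : Sx (2 ^ (a + e)) P n ↔ Sd (Sx (2 ^ e) P) a n := by
  unfold Sx Sd
  have h : 2 ^ (a + e) = 2 ^ a * 2 ^ e := pow_add _ _ _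
  constructor
  · rintro ⟨k, rfl, hk⟩
    exact ⟨2 ^ e * k, by rw [h]; ring, k, rfl, hk⟩
  · rintro ⟨s, rfl, k, rfl, hk⟩
    exact ⟨k, by rw [h]; ring, hk⟩

open Classical in
/-- the sum of the joint pattern over the shifts by elements of `S` -/
theorem sum_shift {T A L : ℕ} (c : Tr T A L → ZMod 2) (S : ℕ → Prop) (F E : ℕ → (ZMod 2)⟦X⟧)
    (hE : ∀ a n, coeff n (E a) = if Sd S a n then 1 else 0) (n : ℕ)
    (hbad : ¬ ∃ s, S s ∧ n < s ∧ s ≤ n + L) :
    ∑ s ∈ cntF S n, wT c (fun t m => coeff m (F t)) (n - s) =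
      ∑ x : Tr T A L, c x * coeff (2 ^ (x.2.1 : ℕ) * n + x.2.2) (F x.1 * E x.2.1) := by
  unfold wT
  rw [Finset.sum_comm]
  refine Finset.sum_congr rfl fun x _ => ?_
  rw [← Finset.mul_sum, coeff_eq_sum (Sd S x.2.1) (F x.1) (E x.2.1) (hE x.2.1)]
  congr 1
  rw [cntF_dilate S x.2.1 n x.2.2]
  · rw [Finset.sum_image]
    · refine Finset.sum_congr rfl fun s hs => ?_
      unfold cntF at hs
      rw [mem_filter, mem_range] at hs
      congr 1
      have e1 : 2 ^ (x.2.1 : ℕ) * n = 2 ^ (x.2.1 : ℕ) * (n - s) + 2 ^ (x.2.1 : ℕ) * s := by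
        rw [← mul_add]
        congr 1
        omega
      omega
    · intro s _ s' _ h
      exact Nat.eq_of_mul_eq_mul_left (show 0 < 2 ^ (x.2.1 : ℕ) by positivity) h
  · intro s hs hns h
    apply hbad
    refine ⟨s, hs, hns, ?_⟩
    have hi : (x.2.2 : ℕ) ≤ L := Nat.lt_succ_iff.1 x.2.2.2
    have h1 : 1 ≤ 2 ^ (x.2.1 : ℕ) := Nat.one_le_pow _ _ (by norm_num)
    obtain ⟨d, rfl⟩ : ∃ d, s = n + d := ⟨s - n, by omega⟩
    rw [mul_add] at h
    have h2 : 2 ^ (x.2.1 : ℕ) * d ≤ x.2.2 := by omega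
    have h3 : d ≤ 2 ^ (x.2.1 : ℕ) * d := Nat.le_mul_of_pos_left _ (by omega)
    omega

open Classical in
theorem transfer' (W g : ℕ → ZMod 2) (S : ℕ → Prop) (L m : ℕ)
    (hsum : ∀ n, (¬ ∃ s, S s ∧ n < s ∧ s ≤ n + L) → ∑ s ∈ cntF S n, W (n - s) = g n)
    (hS : ∀ n, S n → m ∣ n) (ρ x : ℕ) :
    ((range (x + 1)).filter fun n => n % m = ρ % m ∧ g n = 1).card ≤
      (((range (x + 1)).filter fun n => n % m = ρ % m ∧ W n = 1).card + L) *
        (cntF S (x + L)).card := by
  set V := (range (x + 1)).filter fun n => n % m = ρ % m ∧ W n = 1 with hV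
  set Gd := (range (x + 1)).filter fun n => n % m = ρ % m ∧ g n = 1 with hGd
  have h1 : Gd.card ≤ (Gd \ bad S L x).card + (bad S L x).card := by
    rw [← Finset.card_sdiff_add_card_inter Gd (bad S L x)]
    exact Nat.add_le_add_left (card_le_card inter_subset_right) _
  have hex : ∀ n ∈ Gd \ bad S L x, ∃ s ∈ cntF S n, W (n - s) = 1 := by
    intro n hn
    rw [mem_sdiff, hGd, mem_filter] at hn
    obtain ⟨⟨hn1, hn2, hn3⟩, hn4⟩ := hn
    have hb : ¬ ∃ s, S s ∧ n < s ∧ s ≤ n + L := by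
      intro h
      apply hn4
      unfold bad
      rw [mem_filter]
      exact ⟨hn1, h⟩
    by_contra hcon
    push Not at hcon
    have h2 := hsum n hb
    rw [hn3, Finset.sum_eq_zero] at h2
    · exact zero_ne_one h2
    · intro s hs
      rcases zmod_two (W (n - s)) with h | h
      · exact h
      · exact absurd h (hcon s hs)
  choose! b hb1 hb2 using hex
  have h2 : (Gd \ bad S L x).card ≤ (V ×ˢ cntF S (x + L)).card := by
    apply card_le_card_of_injOn (fun n => (n - b n, b n))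
    · intro n hn
      have hn' := hn
      rw [mem_coe] at hn'
      have e1 := hb1 n hn'
      have e2 := hb2 n hn'
      unfold cntF at e1
      rw [mem_filter, mem_range] at e1
      rw [mem_sdiff, hGd, mem_filter, mem_range] at hn'
      obtain ⟨⟨hn1, hn2, -⟩, -⟩ := hn'
      rw [mem_coe, mem_product]
      constructor
      · simp only [hV]
        rw [mem_filter, mem_range]
        refine ⟨by omega, ?_, e2⟩
        obtain ⟨t, ht⟩ := hS _ e1.2
        have e3 : n - b n + m * t = n := by omega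
        have e4 : (n - b n) % m = n % m := by
          calc (n - b n) % m = (n - b n + m * t) % m := (Nat.add_mul_mod_self_left _ _ _).symm
            _ = n % m := by rw [e3]
        rw [e4]
        exact hn2
      · simp only
        unfold cntF
        rw [mem_filter, mem_range]
        exact ⟨by omega, e1.2⟩
    · intro n hn n' hn' h
      rw [mem_coe] at hn hn'
      have e1 := hb1 n hn
      have e1' := hb1 n' hn'
      unfold cntF at e1 e1'
      rw [mem_filter, mem_range] at e1 e1'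
      simp only [Prod.mk.injEq] at h
      omega
  rw [card_product] at h2
  have h3 := bad_card S L x
  calc Gd.card ≤ _ := h1
    _ ≤ V.card * (cntF S (x + L)).card + L * (cntF S (x + L)).card := Nat.add_le_add h2 h3
    _ = (V.card + L) * (cntF S (x + L)).card := by ring

/-! ### The groups of terms at the same place -/

/-- the place of the term: dilate and constant -/
def plc {T A L : ℕ} (jj : Tr T A L → ℕ) (x : Tr T A L) : ℕ × ℕ :=
  ((x.2.1 : ℕ), 8 * (x.2.2 : ℕ) + (2 * jj x + 1))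

open Classical in
/-- the places -/
noncomputable def GG {T A L : ℕ} (c : Tr T A L → ZMod 2) (jj : Tr T A L → ℕ) : Finset (ℕ × ℕ) :=
  ((univ : Finset (Tr T A L)).filter fun x => c x ≠ 0).image (plc jj)

open Classical in
/-- the exponents at a place -/
noncomputable def JJ {T A L : ℕ} (c : Tr T A L → ZMod 2) (jj : Tr T A L → ℕ) (y : ℕ × ℕ) :
    Finset ℕ :=
  (((univ : Finset (Tr T A L)).filter fun x => c x ≠ 0).filter fun x => plc jj x = y).image jj

theorem regroup {T A L : ℕ} (c : Tr T A L → ZMod 2) (jj : Tr T A L → ℕ)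
    (hinj : ∀ x y : Tr T A L, c x ≠ 0 → c y ≠ 0 → plc jj x = plc jj y → jj x = jj y → x = y)
    (n : ℕ) :
    ∑ x : Tr T A L, c x * coeff (8 * (2 ^ (x.2.1 : ℕ) * n + x.2.2) + (2 * jj x + 1))
        ((Db : S) ^ (2 * jj x + 1)) =
      gS (GG c jj) (fun y => ∑ j ∈ JJ c jj y, (Db : S) ^ (2 * j + 1)) n := by
  classical
  unfold gS
  set J := (univ : Finset (Tr T A L)).filter fun x => c x ≠ 0 with hJ
  have h1 : ∑ x : Tr T A L, c x * coeff (8 * (2 ^ (x.2.1 : ℕ) * n + x.2.2) + (2 * jj x + 1))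
        ((Db : S) ^ (2 * jj x + 1)) =
      ∑ x ∈ J, coeff (8 * 2 ^ (plc jj x).1 * n + (plc jj x).2) ((Db : S) ^ (2 * jj x + 1)) := by
    rw [hJ, Finset.sum_filter]
    refine Finset.sum_congr rfl fun x _ => ?_
    rcases zmod_two (c x) with h | h
    · rw [if_neg (by simp [h]), h, zero_mul]
    · rw [if_pos (by simp [h]), h, one_mul]
      congr 1
      unfold plc
      simp only
      ring_nf
  rw [h1, ← Finset.sum_fiberwise_of_maps_to (s := J) (t := GG c jj) (g := plc jj)]
  · refine Finset.sum_congr rfl fun y _ => ?_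
    rw [map_sum]
    unfold JJ
    rw [Finset.sum_image]
    · refine Finset.sum_congr rfl fun x hx => ?_
      rw [mem_filter] at hx
      rw [hx.2]
    · intro x hx x' hx' h
      rw [mem_coe, mem_filter, mem_filter] at hx hx'
      exact hinj x x' hx.1.2 hx'.1.2 (hx.2.trans hx'.2.symm) h
  · intro x hx
    unfold GG
    exact mem_image_of_mem _ hx

end Pool.Agent.L7h67.MP
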