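import Pool.Agent.L7h67.MP.Gen

set_option autoImplicit false

/-! # Finitely many pairwise non-proportional linear forms: many values 1 on the modular side -/

namespace Pool.Agent.L7h67.MP

open Finset Pool.Agent.R836.PP PowerSeries
open Pool.Agent.H397R2.PP Pool.Agent.H397R2.PP.TH Pool.Agent.H307R2.OP
open Pool.Agent.N493.PE (crtAll odd_coprime_two_pow)

/-- the sum of the values of `Φ y` at `8 2 ^ a n + β`, `y = (a, β)` -/
noncomputable def gS (G : Finset (ℕ × ℕ)) (Φ : ℕ × ℕ → (ZMod 2)⟦X⟧) (n : ℕ) : ZMod 2 :=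
  ∑ y ∈ G, coeff (8 * 2 ^ y.1 * n + y.2) (Φ y)

theorem two_pow_odd {a a' B B' : ℕ} (hB : B % 2 = 1) (hB' : B' % 2 = 1)
    (h : 2 ^ a * B = 2 ^ a' * B') : a = a' := by
  wlog hlt : a ≤ a' generalizing a a' B B'
  · exact (this hB' hB h.symm (by omega)).symm
  obtain ⟨d, rfl⟩ : ∃ d, a' = a + d := ⟨a' - a, by omega⟩
  have h1 : B = 2 ^ d * B' := by
    have h2 : 2 ^ a * B = 2 ^ a * (2 ^ d * B') := by rw [h, pow_add]; ring
    exact Nat.eq_of_mul_eq_mul_left (by positivity) h2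
  rcases Nat.eq_zero_or_pos d with rfl | hd
  · rfl
  · exfalso
    obtain ⟨d', rfl⟩ : ∃ d', d = d' + 1 := ⟨d - 1, by omega⟩
    rw [pow_succ] at h1
    have : B = 2 * (2 ^ d' * B') := by rw [h1]; ring
    omega

theorem groups_lower (w : ℕ → ℝ) (hw : Wt w) (e H : ℕ) (G : Finset (ℕ × ℕ))
    (Φ : ℕ × ℕ → (ZMod 2)⟦X⟧) (hG : ∀ y ∈ G, y.2 % 2 = 1) (h1 : ∀ y ∈ G, Many w y.2 (Φ y))
    (h2 : ∀ y ∈ G, Vanish H (Φ y)) (hne : G.Nonempty) (ρ : ℕ) :
    ∃ δ : ℝ, 0 < δ ∧ ∃ X0 : ℕ, ∀ x : ℕ, X0 ≤ x → δ * x / w x ≤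
      (((range (x + 1)).filter fun n => n % 2 ^ e = ρ % 2 ^ e ∧ gS G Φ n = 1).card : ℝ) := by
  classical
  obtain ⟨y0, hy0⟩ := hne
  set α0 : ℕ := 8 * 2 ^ y0.1 with hα0
  set β0 : ℕ := y0.2 with hβ0
  have hα0pos : 0 < α0 := by positivity
  have hα08 : 8 ≤ α0 := by
    have : 1 ≤ 2 ^ y0.1 := Nat.one_le_pow _ _ (by norm_num)
    omega
  have hβ0odd : β0 % 2 = 1 := hG y0 hy0
  have hform : ∀ n, (α0 * n + β0) % 2 = 1 := by
    intro n
    have : α0 * n = 2 * (4 * 2 ^ y0.1 * n) := by rw [hα0]; ring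
    omega
  set s : Finset (ℕ × ℕ) := (G.erase y0).image (fun p => (8 * 2 ^ p.1, p.2)) with hs
  have hsp : ∀ p ∈ s, 0 < p.1 ∧ (p.1 : ℤ) * β0 ≠ α0 * p.2 := by
    intro p hp
    rw [hs, mem_image] at hp
    obtain ⟨y, hq, rfl⟩ := hp
    refine ⟨by positivity, ?_⟩
    intro h
    have h' : 8 * 2 ^ y.1 * β0 = α0 * y.2 := by exact_mod_cast h
    have h3 : 2 ^ y.1 * β0 = 2 ^ y0.1 * y.2 := by
      rw [hα0] at h'
      have e1 : 8 * (2 ^ y.1 * β0) = 8 * (2 ^ y0.1 * y.2) := by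
        rw [← mul_assoc, h', mul_assoc]
      exact Nat.eq_of_mul_eq_mul_left (by norm_num) e1
    have hyG := (mem_erase.1 hq).2
    have h4 : y.1 = y0.1 := two_pow_odd hβ0odd (hG y hyG) h3
    rw [h4] at h3
    have h5 := Nat.eq_of_mul_eq_mul_left (by positivity) h3
    exact (mem_erase.1 hq).1 (Prod.ext h4 h5.symm)
  obtain ⟨Q, n1, g1, g2, g3, g4, g5⟩ := crtAll α0 β0 H (2 ^ e) ρ (by positivity)
    (odd_coprime_two_pow (hform ρ)) s hsp
  have h8Q : 8 ∣ α0 * Q := (Dvd.intro _ rfl : 8 ∣ α0).mul_right _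
  have hco : (α0 * n1 + β0).Coprime (α0 * Q) := by
    apply Nat.Coprime.mul_right _ g4
    have hpow : α0 = 2 ^ (y0.1 + 3) := by
      rw [hα0, pow_add]; norm_num; ring
    have h := odd_coprime_two_pow (k := y0.1 + 3) (hform n1)
    rwa [← hpow] at h
  have hmod8 : (α0 * n1 + β0) % 8 = y0.2 % 8 := by
    rw [hα0, hβ0]
    have : 8 * 2 ^ y0.1 * n1 + y0.2 = y0.2 + 8 * (2 ^ y0.1 * n1) := by ring
    rw [this, Nat.add_mul_mod_self_left]
  obtain ⟨δ, hδ, X1, hX1⟩ := h1 y0 hy0 (α0 * Q) (α0 * n1 + β0) (by positivity) h8Q hco hmod8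
  have hval : ∀ n, n ≡ n1 [MOD Q] → coeff (α0 * n + β0) (Φ y0) = 1 → gS G Φ n = 1 := by
    intro n hn hcoef
    unfold gS
    rw [Finset.sum_eq_single y0]
    · exact hcoef
    · intro y hy hyne
      obtain ⟨R, hR, hr⟩ := g5 n hn (8 * 2 ^ y.1, y.2) (by
        rw [hs, mem_image]
        exact ⟨y, mem_erase.2 ⟨hyne, hy⟩, rfl⟩)
      exact h2 y hy _ R hR hr
    · intro h
      exact absurd hy0 h
  have hinj : ∀ x : ℕ, (((Icc 1 (8 * x)).filter
      (fun N => N % (α0 * Q) = (α0 * n1 + β0) % (α0 * Q) ∧ coeff N (Φ y0) = 1)).card : ℕ) ≤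
      ((range (x + 1)).filter fun n => n % 2 ^ e = ρ % 2 ^ e ∧ gS G Φ n = 1).card +
        (α0 * n1 + β0) := by
    intro x
    have hsub : (Icc 1 (8 * x)).filter (fun N => N % (α0 * Q) = (α0 * n1 + β0) % (α0 * Q) ∧
        coeff N (Φ y0) = 1) ⊆
        (((range (x + 1)).filter fun n => n % 2 ^ e = ρ % 2 ^ e ∧ gS G Φ n = 1).image
          fun n => α0 * n + β0) ∪ range (α0 * n1 + β0) := by
      intro N hN
      rw [mem_filter, mem_Icc] at hN
      obtain ⟨⟨hN1, hN2⟩, hN3, hN4⟩ := hN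
      rw [mem_union, mem_range, mem_image]
      by_cases hlt : N < α0 * n1 + β0
      · exact Or.inr hlt
      · left
        push Not at hlt
        have hm : (α0 * n1 + β0) ≡ N [MOD (α0 * Q)] := Nat.ModEq.symm hN3
        obtain ⟨z, hz⟩ := (Nat.modEq_iff_dvd' hlt).1 hm
        have hNe : N = α0 * (n1 + Q * z) + β0 := by
          have : N = α0 * n1 + β0 + α0 * Q * z := by omega
          rw [this]
          ring
        have hcl : n1 + Q * z ≡ n1 [MOD Q] := by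
          unfold Nat.ModEq
          exact Nat.add_mul_mod_self_left _ _ _
        refine ⟨n1 + Q * z, ?_, hNe.symm⟩
        rw [mem_filter, mem_range]
        refine ⟨?_, ?_, ?_⟩
        · have e1 : 8 * (n1 + Q * z) ≤ α0 * (n1 + Q * z) := Nat.mul_le_mul_right _ hα08
          omega
        · exact (hcl.of_dvd g2).trans g3
        · apply hval _ hcl
          rw [← hNe]
          exact hN4
    calc _ ≤ _ := card_le_card hsub
      _ ≤ _ := card_union_le _ _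
      _ ≤ _ := by
        rw [card_range]
        exact Nat.add_le_add_right card_image_le _
  set B : ℕ := α0 * n1 + β0 with hB
  obtain ⟨X2, hX2⟩ := exists_nat_gt (((B : ℝ) / δ) ^ 2)
  obtain ⟨X3, hX3⟩ := hw.pos
  obtain ⟨X4, hX4⟩ := hw.small 1 one_pos
  refine ⟨δ, hδ, max (max X1 X2) (max (max X3 X4) 3), fun x hx => ?_⟩
  simp only [max_le_iff] at hx
  obtain ⟨⟨hx1, hx2⟩, ⟨hx3, hx4⟩, hx5⟩ := hx
  have hxr : (0 : ℝ) < x := by
    have : 0 < x := by omega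
    exact_mod_cast this
  obtain ⟨w1, w2⟩ := hX3 x hx3
  obtain ⟨w3, -⟩ := hX3 (8 * x) (by omega)
  have w4 := hX4 x hx4
  rw [one_mul] at w4
  have e1 := hX1 (8 * x) (by omega)
  have e2 : (((Icc 1 (8 * x)).filter (fun N => N % (α0 * Q) = B % (α0 * Q) ∧
      coeff N (Φ y0) = 1)).card : ℝ) ≤
      (((range (x + 1)).filter fun n => n % 2 ^ e = ρ % 2 ^ e ∧ gS G Φ n = 1).card : ℝ) + B := by
    exact_mod_cast hinj x
  have e5 : (B : ℝ) ≤ δ * Real.sqrt x := by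
    have h3 : ((B : ℝ) / δ) ^ 2 ≤ x := hX2.le.trans (by exact_mod_cast hx2)
    have h4 : (B : ℝ) / δ ≤ Real.sqrt x := Real.le_sqrt_of_sq_le h3
    rw [div_le_iff₀ hδ] at h4
    linarith
  have e6 : Real.sqrt x ≤ x / w x := by
    rw [le_div_iff₀ w1]
    have h6 : Real.sqrt (x : ℝ) * Real.sqrt x = x := Real.mul_self_sqrt hxr.le
    nlinarith [Real.sqrt_nonneg (x : ℝ)]
  have e7 : 4 * (δ * (x / w x)) ≤ δ * ((8 * x : ℕ) : ℝ) / w (8 * x) := by
    have : 4 * (δ * (x / w x)) = (4 * δ * x) / w x := by ring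
    rw [this, div_le_div_iff₀ w1 w3]
    push_cast
    have h9 : 4 * δ * x * w (8 * x) ≤ 4 * δ * x * (2 * w x) := by
      apply mul_le_mul_of_nonneg_left w2
      positivity
    linarith
  have e8 : δ * x / w x = δ * (x / w x) := by ring
  rw [e8]
  have e10 : δ * Real.sqrt x ≤ δ * (x / w x) := mul_le_mul_of_nonneg_left e6 hδ.le
  have e11 : 0 ≤ δ * (x / w x) := by positivity
  linarith

/-! ### Combinations of odd powers of the discriminant -/

theorem sum_mem_FF (J : Finset ℕ) : ∑ j ∈ J, (Db : S) ^ (2 * j + 1) ∈ FF :=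
  Submodule.sum_mem _ fun j _ => Submodule.subset_span ⟨j, rfl⟩

theorem sum_mem_WW (J : Finset ℕ) (n0 : ℕ) (h : ∀ j ∈ J, cont j ≤ n0) :
    ∑ j ∈ J, (Db : S) ^ (2 * j + 1) ∈ NIL.WW (n0 + 1) :=
  Submodule.sum_mem _ fun j hj => NIL.WW_mem (Nat.lt_succ_of_le (h j hj))

theorem sum_not_mem (J : Finset ℕ) (j0 : ℕ) (hj0 : j0 ∈ J) :
    ∑ j ∈ J, (Db : S) ^ (2 * j + 1) ∉ NIL.WW (cont j0) := by
  intro h
  have hsub : ∀ φ ∈ NIL.WW (cont j0), ∃ P : Polynomial (ZMod 2), P.coeff (2 * j0 + 1) = 0 ∧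
      Polynomial.aeval (Db : S) P = φ := by
    intro φ hφ
    induction hφ using Submodule.span_induction with
    | mem x hx =>
      obtain ⟨i, hi, rfl⟩ := hx
      refine ⟨Polynomial.X ^ (2 * i + 1), ?_, by rw [map_pow, Polynomial.aeval_X]⟩
      rw [Polynomial.coeff_X_pow, if_neg]
      intro h
      have : j0 = i := by omega
      subst this
      omega
    | zero => exact ⟨0, by simp, by simp⟩
    | add x y _ _ hx hy =>
      obtain ⟨P, h1, h2⟩ := hx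
      obtain ⟨Q, h3, h4⟩ := hy
      exact ⟨P + Q, by rw [Polynomial.coeff_add, h1, h3, add_zero], by rw [map_add, h2, h4]⟩
    | smul a x _ hx =>
      obtain ⟨P, h1, h2⟩ := hx
      exact ⟨a • P, by rw [Polynomial.coeff_smul, h1, smul_zero], by rw [map_smul, h2]⟩
  obtain ⟨P, h1, h2⟩ := hsub _ h
  set R : Polynomial (ZMod 2) := ∑ j ∈ J, Polynomial.X ^ (2 * j + 1) with hR
  have hRc : R.coeff (2 * j0 + 1) = 1 := by
    rw [hR, Polynomial.finsetSum_coeff, Finset.sum_eq_single j0]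
    · rw [Polynomial.coeff_X_pow, if_pos rfl]
    · intro j _ hj
      rw [Polynomial.coeff_X_pow, if_neg]
      omega
    · intro h
      exact absurd hj0 h
  have hRa : Polynomial.aeval (Db : S) R = ∑ j ∈ J, (Db : S) ^ (2 * j + 1) := by
    rw [hR, map_sum]
    refine Finset.sum_congr rfl fun j _ => ?_
    rw [map_pow, Polynomial.aeval_X]
  have h3 : P - R ≠ 0 := by
    intro h0
    have := congrArg (fun T => Polynomial.coeff T (2 * j0 + 1)) h0
    simp only [Polynomial.coeff_sub, h1, hRc, Polynomial.coeff_zero] at this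
    simp at this
  apply aeval_Db_ne _ h3
  rw [map_sub, h2, hRa, sub_self]

/-- a nonempty sum of distinct odd powers with large exponents, all congruent modulo 8 -/
theorem many_sum (J : Finset ℕ) (hJ : J.Nonempty) (K μ : ℕ) (hK : ∀ j ∈ J, 4 ^ K ≤ j)
    (hμ : ∀ j ∈ J, (2 * j + 1) % 8 = μ % 8) :
    Many (wK K) μ (∑ j ∈ J, (Db : S) ^ (2 * j + 1)) := by
  obtain ⟨j0, hj0, hmax⟩ := Finset.exists_max_image J cont hJ
  apply many_gen _ (cont j0) K μ (sum_mem_FF J) (sum_mem_WW J _ hmax) (sum_not_mem J j0 hj0)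
  · intro N hN
    by_contra hcon
    apply hN
    rw [map_sum]
    apply Finset.sum_eq_zero
    intro j hj
    by_contra h
    exact hcon ((coeff_Db_ne h).trans (hμ j hj))
  · exact le_cont (hK j0 hj0)

end Pool.Agent.L7h67.MP
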