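import Pool.Agent.L7h67.MP.Cnt

set_option autoImplicit false

/-! # Joint patterns of several multipartition functions at the dilates `2 ^ a n` -/

namespace Pool.Agent.L7h67.MP

open Finset Pool.Agent.R836.PP PowerSeries
open Pool.Agent.H397R2.PP Pool.Agent.H397R2.PP.TH Pool.Agent.H307R2.OP
open Pool.Agent.N493.PD (Ft)

/-- the condition on the coefficients -/
def Supp {T A L : ℕ} (τ : ℕ) (c : Tr T A L → ZMod 2) : Prop :=
  ∀ x : Tr T A L, c x ≠ 0 → (x.1 : ℕ) % 2 = 1 ∧ (x.1 : ℕ) % 3 = (τ * 2 ^ (x.2.1 : ℕ)) % 3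

/-- the places where the joint pattern is `1` -/
noncomputable def valsT {T A L : ℕ} (c : Tr T A L → ZMod 2) (m ρ x : ℕ) : Finset ℕ :=
  (range (x + 1)).filter fun n => n % m = ρ % m ∧ wT c (fun t k => coeff k (Ft t)) n = 1

/-- the exponents -/
def jx {T A L : ℕ} (e ε : ℕ) (x : Tr T A L) : ℕ :=
  ((2 ^ ((x.2.1 : ℕ) + e) * ε - x.1) / 3 - 1) / 2

theorem mem_GG {T A L : ℕ} {c : Tr T A L → ZMod 2} {jj : Tr T A L → ℕ} {y : ℕ × ℕ} :
    y ∈ GG c jj ↔ ∃ x : Tr T A L, c x ≠ 0 ∧ plc jj x = y := by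
  classical
  unfold GG
  simp only [mem_image, mem_filter, mem_univ, true_and]

theorem mem_JJ {T A L : ℕ} {c : Tr T A L → ZMod 2} {jj : Tr T A L → ℕ} {y : ℕ × ℕ} {j : ℕ} :
    j ∈ JJ c jj y ↔ ∃ x : Tr T A L, c x ≠ 0 ∧ plc jj x = y ∧ jj x = j := by
  classical
  unfold JJ
  simp only [mem_image, mem_filter, mem_univ, true_and, and_assoc]

/-- the group series -/
noncomputable def PhiG {T A L : ℕ} (c : Tr T A L → ZMod 2) (jj : Tr T A L → ℕ) (y : ℕ × ℕ) :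
    (ZMod 2)⟦X⟧ := ∑ j ∈ JJ c jj y, (Db : S) ^ (2 * j + 1)

theorem group_facts {T A L : ℕ} (K : ℕ) (c : Tr T A L → ZMod 2) (hc : c ≠ 0) (jj : Tr T A L → ℕ)
    (hK : ∀ x : Tr T A L, c x ≠ 0 → 4 ^ (K + 1) ≤ jj x) :
    (∀ y ∈ GG c jj, y.2 % 2 = 1) ∧ (∀ y ∈ GG c jj, Many (wK (K + 1)) y.2 (PhiG c jj y)) ∧
    (∃ H : ℕ, ∀ y ∈ GG c jj, Vanish H (PhiG c jj y)) ∧ (GG c jj).Nonempty := by
  refine ⟨?_, ?_, ?_, ?_⟩
  · intro y hy
    obtain ⟨x, -, rfl⟩ := mem_GG.1 hy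
    unfold plc
    simp only
    omega
  · intro y hy
    obtain ⟨x, hx, hxy⟩ := mem_GG.1 hy
    unfold PhiG
    apply many_sum
    · exact ⟨jj x, mem_JJ.2 ⟨x, hx, hxy, rfl⟩⟩
    · intro j hj'
      obtain ⟨x, h1, -, rfl⟩ := mem_JJ.1 hj'
      exact hK x h1
    · intro j hj'
      obtain ⟨x, h1, rfl, rfl⟩ := mem_JJ.1 hj'
      unfold plc
      simp only
      omega
  · refine ⟨(univ : Finset (Tr T A L)).sup (fun x => cont (jj x)) + 1, ?_⟩
    intro y _ N R hR h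
    refine coeff_vanish _ _ ?_ N R hR h
    unfold PhiG
    apply sum_mem_WW
    intro j hj'
    obtain ⟨x, -, -, rfl⟩ := mem_JJ.1 hj'
    exact Finset.le_sup (f := fun x => cont (jj x)) (mem_univ x)
  · obtain ⟨x, hx⟩ : ∃ x, c x ≠ 0 := by
      by_contra hcon
      push Not at hcon
      exact hc (funext hcon)
    exact ⟨plc jj x, mem_GG.2 ⟨x, hx, rfl⟩⟩

/-- the shifted sums of the joint pattern are the values of the modular side -/
theorem shift_eq {T A L : ℕ} (e ε : ℕ) (Z : ℕ → Prop)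
    (hE : ∀ a n, (Sd Z a n → coeff n (pentagonalSeries (ZMod 2) ^ (2 ^ (a + e) * ε)) = 1) ∧
      (¬ Sd Z a n → coeff n (pentagonalSeries (ZMod 2) ^ (2 ^ (a + e) * ε)) = 0))
    (c : Tr T A L → ZMod 2)
    (hj : ∀ x : Tr T A L, c x ≠ 0 → (x.1 : ℕ) + 3 * (2 * jx e ε x + 1) = 2 ^ ((x.2.1 : ℕ) + e) * ε)
    (n : ℕ) (hn : ¬ ∃ s, Z s ∧ n < s ∧ s ≤ n + L) :
    ∑ s ∈ cntF Z n, wT c (fun t k => coeff k (Ft t)) (n - s) =
      gS (GG c (jx e ε)) (PhiG c (jx e ε)) n := by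
  classical
  have hinj : ∀ x y : Tr T A L, c x ≠ 0 → c y ≠ 0 → plc (jx e ε) x = plc (jx e ε) y →
      jx e ε x = jx e ε y → x = y := by
    intro x y hx hy h1 h2
    unfold plc at h1
    rw [Prod.mk.injEq] at h1
    have h3 := hj x hx
    have h4 := hj y hy
    rw [h1.1, h2] at h3
    have h5 : (x.1 : ℕ) = y.1 := by omega
    have h6 : (x.2.2 : ℕ) = y.2.2 := by omega
    exact Prod.ext (Fin.ext h5) (Prod.ext (Fin.ext h1.1) (Fin.ext h6))
  have hE' : ∀ a n, coeff n (pentagonalSeries (ZMod 2) ^ (2 ^ (a + e) * ε)) =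
      if Sd Z a n then 1 else 0 := by
    intro a n
    by_cases h : Sd Z a n
    · rw [if_pos h, (hE a n).1 h]
    · rw [if_neg h, (hE a n).2 h]
  have h1 := sum_shift c Z Ft (fun a => pentagonalSeries (ZMod 2) ^ (2 ^ (a + e) * ε)) hE' n hn
  have h2 := regroup c (jx e ε) hinj n
  rw [h1]
  refine Eq.trans ?_ h2
  refine Finset.sum_congr rfl fun x _ => ?_
  rcases zmod_two (c x) with h | h
  · rw [h, zero_mul, zero_mul]
  · congr 1
    have h1 : c x ≠ 0 := by rw [h]; exact one_ne_zero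
    rw [pow_eq (x.1 : ℕ) (3 * (2 * jx e ε x + 1)) _ (hj x h1), coeff_Db_pow]

/-- the counting theorem with an abstract sparse set -/
theorem count_of {T A L : ℕ} (b K e ε : ℕ) (hbe : b ≤ e) (Z : ℕ → Prop)
    (hE : ∀ a n, (Sd Z a n → coeff n (pentagonalSeries (ZMod 2) ^ (2 ^ (a + e) * ε)) = 1) ∧
      (¬ Sd Z a n → coeff n (pentagonalSeries (ZMod 2) ^ (2 ^ (a + e) * ε)) = 0))
    (hS : ∀ n, Z n → 2 ^ e ∣ n)
    (hC : ∀ X, ((cntF Z X).card : ℝ) ≤ 5 * (Real.sqrt X + 1))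
    (c : Tr T A L → ZMod 2) (hc : c ≠ 0)
    (hj : ∀ x : Tr T A L, c x ≠ 0 → (x.1 : ℕ) + 3 * (2 * jx e ε x + 1) = 2 ^ ((x.2.1 : ℕ) + e) * ε)
    (hK : ∀ x : Tr T A L, c x ≠ 0 → 4 ^ (K + 1) ≤ jx e ε x) (ρ : ℕ) :
    ∃ X0 : ℕ, ∀ x : ℕ, X0 ≤ x →
      Real.sqrt x * (Real.log (Real.log x)) ^ K / Real.log x ≤
      ((valsT c (2 ^ b) ρ x).card : ℝ) := by
  classical
  obtain ⟨hGodd, hMany, ⟨H, hVan⟩, hne⟩ := group_facts K c hc (jx e ε) hK
  obtain ⟨δ1, hδ1, X1, hX1⟩ := groups_lower (wK (K + 1)) (wt_wK (K + 1)) e H (GG c (jx e ε))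
    (PhiG c (jx e ε)) hGodd hMany hVan hne ρ
  have t1 : ∀ x, ((range (x + 1)).filter fun n => n % 2 ^ e = ρ % 2 ^ e ∧
      gS (GG c (jx e ε)) (PhiG c (jx e ε)) n = 1).card ≤
      ((valsT c (2 ^ e) ρ x).card + L) * (cntF Z (x + L)).card :=
    fun x => transfer' _ _ Z L (2 ^ e) (shift_eq e ε Z hE c hj) hS ρ x
  obtain ⟨Xw, hXw⟩ := (wt_wK (K + 1)).pos
  have s1 : ∃ X3 : ℕ, ∀ x : ℕ, X3 ≤ x →
      (δ1 / (6 * 5)) * Real.sqrt x / wK (K + 1) x ≤ ((valsT c (2 ^ e) ρ x).card : ℝ) := by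
    apply step_div L 5 (by norm_num) (fun X => (cntF Z X).card) hC
      (fun x => ((range (x + 1)).filter fun n => n % 2 ^ e = ρ % 2 ^ e ∧
        gS (GG c (jx e ε)) (PhiG c (jx e ε)) n = 1).card)
      (fun x => (valsT c (2 ^ e) ρ x).card) t1 δ1 hδ1 (wK (K + 1)) _ X1 hX1
    obtain ⟨X4, hX4⟩ := (wt_wK (K + 1)).small (6 * 5 * L / δ1 + 1) (by positivity)
    refine ⟨max Xw X4, fun x hx => ?_⟩
    have hp := (hXw x (le_trans (le_max_left _ _) hx)).1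
    refine ⟨hp, ?_⟩
    have := hX4 x (le_trans (le_max_right _ _) hx)
    nlinarith
  obtain ⟨X3, hX3⟩ := s1
  set δ := δ1 / (6 * 5) with hδdef
  have hδ : 0 < δ := by positivity
  obtain ⟨X5, hX5⟩ := ev_loglog (max 1 (1 / δ))
  refine ⟨max X3 X5, fun x hx => ?_⟩
  have h1 := hX3 x (le_trans (le_max_left _ _) hx)
  have h2 := hX5 x (le_trans (le_max_right _ _) hx)
  rw [max_le_iff] at h2
  have h3 := log_pos_of (x := x) (by linarith [h2.1])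
  have h0 : ((valsT c (2 ^ e) ρ x).card : ℝ) ≤ ((valsT c (2 ^ b) ρ x).card : ℝ) := by
    have : (valsT c (2 ^ e) ρ x).card ≤ (valsT c (2 ^ b) ρ x).card := by
      apply card_le_card
      intro n hn
      unfold valsT at hn ⊢
      rw [mem_filter] at hn ⊢
      obtain ⟨h4, h5, h6⟩ := hn
      have e1 : n ≡ ρ [MOD 2 ^ e] := h5
      exact ⟨h4, e1.of_dvd (pow_dvd_pow 2 hbe), h6⟩
    exact_mod_cast this
  refine le_trans ?_ (h1.trans h0)
  unfold wK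
  have h4 : 1 ≤ δ * Real.log (Real.log x) := by
    have := h2.2
    rw [div_le_iff₀ hδ] at this
    linarith
  have h5 : δ * Real.sqrt x / (Real.log x / Real.log (Real.log x) ^ (K + 1)) =
      (Real.sqrt x * (Real.log (Real.log x)) ^ K / Real.log x) * (δ * Real.log (Real.log x)) := by
    rw [pow_succ]
    field_simp
  rw [h5]
  apply le_mul_of_one_le_right _ h4
  have : 0 < Real.log (Real.log x) := by linarith [h2.1]
  positivity

/-- the exponents satisfy the conditions -/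
theorem jx_spec {T A L : ℕ} (K f e ε : ℕ) (hf : T + 2 * (K + 1) + 10 ≤ f) (hfe : f ≤ e)
    (hε : 1 ≤ ε) (x : Tr T A L) (hodd : (x.1 : ℕ) % 2 = 1)
    (h3 : (2 ^ ((x.2.1 : ℕ) + e) * ε) % 3 = (x.1 : ℕ) % 3) :
    (x.1 : ℕ) + 3 * (2 * jx e ε x + 1) = 2 ^ ((x.2.1 : ℕ) + e) * ε ∧ 4 ^ (K + 1) ≤ jx e ε x := by
  have hb := big T (K + 1) f hf
  have hx : (x.1 : ℕ) ≤ T := Nat.lt_succ_iff.1 x.1.2
  have h1 : 2 ^ f ≤ 2 ^ ((x.2.1 : ℕ) + e) := Nat.pow_le_pow_right (by norm_num) (by omega)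
  have h2 : 2 ^ ((x.2.1 : ℕ) + e) ≤ 2 ^ ((x.2.1 : ℕ) + e) * ε := Nat.le_mul_of_pos_right _ hε
  have h4 : (2 ^ ((x.2.1 : ℕ) + e) * ε) % 2 = 0 := by
    obtain ⟨q, hq⟩ : ∃ q, (x.2.1 : ℕ) + e = q + 1 := ⟨(x.2.1 : ℕ) + e - 1, by omega⟩
    rw [hq, pow_succ, mul_comm (2 ^ q) 2, mul_assoc]
    exact Nat.mul_mod_right _ _
  unfold jx
  generalize 2 ^ ((x.2.1 : ℕ) + e) * ε = N at *
  omega

/-- **joint linear patterns of several multipartition functions at the dilates `2 ^ a n`** -/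
theorem joint_count {T A L : ℕ} (τ b K : ℕ) (c : Tr T A L → ZMod 2) (hc : c ≠ 0) (hs : Supp τ c)
    (ρ : ℕ) : ∃ X0 : ℕ, ∀ x : ℕ, X0 ≤ x →
      Real.sqrt x * (Real.log (Real.log x)) ^ K / Real.log x ≤
      ((valsT c (2 ^ b) ρ x).card : ℝ) := by
  classical
  set f : ℕ := b + T + 2 * (K + 1) + 10 with hf
  have hτ : τ % 3 = 0 ∨ τ % 3 = 1 ∨ τ % 3 = 2 := by omega
  have h22 : ∀ k, 2 ^ (2 * k) % 3 = 1 := by
    intro k
    rw [pow_mul, Nat.pow_mod]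
    norm_num
  rcases hτ with h | h | h
  · have hsp : ∀ x : Tr T A L, c x ≠ 0 → (x.1 : ℕ) + 3 * (2 * jx f 3 x + 1) =
        2 ^ ((x.2.1 : ℕ) + f) * 3 ∧ 4 ^ (K + 1) ≤ jx f 3 x := by
      intro x hx
      obtain ⟨h1, h2⟩ := hs x hx
      apply jx_spec K f f 3 (by omega) le_rfl (by norm_num) x h1
      rw [h2, Nat.mul_mod_left, Nat.mul_mod, h, zero_mul, Nat.zero_mod]
    refine count_of b K f 3 (by omega) (Sx (2 ^ f) isTri) ?_ (fun n hn => by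
      obtain ⟨k, hk, -⟩ := hn
      exact ⟨k, hk⟩) (cnt_bound isTri _ 8 (by positivity) (by norm_num) (by norm_num) tri_iff) c hc
      (fun x hx => (hsp x hx).1) (fun x hx => (hsp x hx).2) ρ
    intro a n
    rw [mul_comm, pow_mul, pent_eq, ← psi_eq, pow_Sx]
    have h := coeff_Sx (2 ^ (a + f)) isTri n
    rw [Sx_dilate] at h
    exact h
  · have hsp : ∀ x : Tr T A L, c x ≠ 0 → (x.1 : ℕ) + 3 * (2 * jx (2 * f) 1 x + 1) =
        2 ^ ((x.2.1 : ℕ) + 2 * f) * 1 ∧ 4 ^ (K + 1) ≤ jx (2 * f) 1 x := by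
      intro x hx
      obtain ⟨h1, h2⟩ := hs x hx
      apply jx_spec K f (2 * f) 1 (by omega) (by omega) le_rfl x h1
      rw [h2, mul_one, pow_add, Nat.mul_mod, h22, mul_one, Nat.mod_mod, Nat.mul_mod τ, h, one_mul,
        Nat.mod_mod]
    refine count_of b K (2 * f) 1 (by omega) (Sx (2 ^ (2 * f)) isPent) ?_ (fun n hn => by
      obtain ⟨k, hk, -⟩ := hn
      exact ⟨k, hk⟩) (cnt_bound isPent _ 24 (by positivity) (by norm_num) le_rfl pent_iff) c hc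
      (fun x hx => (hsp x hx).1) (fun x hx => (hsp x hx).2) ρ
    intro a n
    rw [mul_one, pent_eq, pow_Sx]
    have h := coeff_Sx (2 ^ (a + 2 * f)) isPent n
    rw [Sx_dilate] at h
    exact h
  · have hsp : ∀ x : Tr T A L, c x ≠ 0 → (x.1 : ℕ) + 3 * (2 * jx (2 * f + 1) 1 x + 1) =
        2 ^ ((x.2.1 : ℕ) + (2 * f + 1)) * 1 ∧ 4 ^ (K + 1) ≤ jx (2 * f + 1) 1 x := by
      intro x hx
      obtain ⟨h1, h2⟩ := hs x hx
      apply jx_spec K f (2 * f + 1) 1 (by omega) (by omega) le_rfl x h1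
      have e1 : 2 ^ (2 * f + 1) % 3 = 2 := by
        have := h22 f
        rw [pow_succ]
        omega
      rw [h2, mul_one, pow_add, Nat.mul_mod, e1, Nat.mul_mod τ, h, mul_comm 2 (2 ^ (x.2.1 : ℕ) % 3)]
    refine count_of b K (2 * f + 1) 1 (by omega) (Sx (2 ^ (2 * f + 1)) isPent) ?_ (fun n hn => by
      obtain ⟨k, hk, -⟩ := hn
      exact ⟨k, hk⟩) (cnt_bound isPent _ 24 (by positivity) (by norm_num) le_rfl pent_iff) c hc
      (fun x hx => (hsp x hx).1) (fun x hx => (hsp x hx).2) ρ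
    intro a n
    rw [mul_one, pent_eq, pow_Sx]
    have h := coeff_Sx (2 ^ (a + (2 * f + 1))) isPent n
    rw [Sx_dilate] at h
    exact h

/-! ### Bounded-memory predictors -/

open Pool.Agent.N493.PD (OnePass exists_diff ev_absorb)
open Pool.Agent.N493.PE (count_pair')

/-- the difference of the values of a joint pattern at `N + r` and `N + r'` is a nonzero joint
pattern at `N` -/
theorem exists_diffT {T A L : ℕ} (τ : ℕ) (c : Tr T A L → ZMod 2) (hc : c ≠ 0) (hs : Supp τ c)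
    (k r r' : ℕ) (hr : r < 2 ^ k) (hr' : r' < 2 ^ k) (hne : r ≠ r') :
    ∃ c' : Tr T A (2 ^ A * 2 ^ k + L) → ZMod 2, c' ≠ 0 ∧ Supp τ c' ∧
      ∀ (φ : ℕ → ℕ → ZMod 2) (n : ℕ), wT c' φ n = wT c φ (n + r) + wT c φ (n + r') := by
  classical
  have h : ∀ (t : Fin (T + 1)) (a : Fin (A + 1)), ∃ c' : Fin (2 ^ A * 2 ^ k + L + 1) → ZMod 2,
      (((fun i => c (t, a, i)) : Fin (L + 1) → ZMod 2) ≠ 0 ↔ c' ≠ 0) ∧
      ∀ (φ : ℕ → ZMod 2) (n : ℕ), ∑ i : Fin (2 ^ A * 2 ^ k + L + 1), c' i * φ (n + i) =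
        (∑ i : Fin (L + 1), c (t, a, i) * φ (n + 2 ^ (a : ℕ) * r + i)) +
          ∑ i : Fin (L + 1), c (t, a, i) * φ (n + 2 ^ (a : ℕ) * r' + i) := by
    intro t a
    by_cases hca : ((fun i => c (t, a, i)) : Fin (L + 1) → ZMod 2) = 0
    · refine ⟨0, by simp [hca], fun φ n => ?_⟩
      have : ∀ i, c (t, a, i) = 0 := fun i => congrFun hca i
      simp [this]
    · have h4 : 0 < 2 ^ (a : ℕ) := by positivity
      have h5 : 2 ^ (a : ℕ) ≤ 2 ^ A := Nat.pow_le_pow_right (by norm_num) (Nat.lt_succ_iff.1 a.2)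
      have hb : ∀ s, s < 2 ^ k → 2 ^ (a : ℕ) * s < 2 ^ A * 2 ^ k := by
        intro s hs
        calc 2 ^ (a : ℕ) * s < 2 ^ (a : ℕ) * 2 ^ k := Nat.mul_lt_mul_of_pos_left hs h4
          _ ≤ 2 ^ A * 2 ^ k := Nat.mul_le_mul_right _ h5
      obtain ⟨c', h1, h2⟩ := exists_diff (fun i => c (t, a, i)) hca (2 ^ A * 2 ^ k)
        (2 ^ (a : ℕ) * r) (2 ^ (a : ℕ) * r') (hb r hr) (hb r' hr')
        (fun h => hne (Nat.eq_of_mul_eq_mul_left h4 h))
      exact ⟨c', ⟨fun _ => h1, fun _ => hca⟩, h2⟩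
  choose c' hc'1 hc'2 using h
  refine ⟨fun x => c' x.1 x.2.1 x.2.2, ?_, ?_, ?_⟩
  · intro h0
    obtain ⟨⟨t, a, i⟩, hx⟩ : ∃ x, c x ≠ 0 := by
      by_contra hcon
      push Not at hcon
      exact hc (funext hcon)
    have h1 : c' t a ≠ 0 := (hc'1 t a).1 (fun h => hx (congrFun h i))
    apply h1
    funext j
    exact congrFun h0 (t, a, j)
  · rintro ⟨t, a, i⟩ hx
    have h1 : c' t a ≠ 0 := fun h => hx (congrFun h i)
    have h2 := (hc'1 t a).2 h1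
    obtain ⟨j, hj⟩ : ∃ j, c (t, a, j) ≠ 0 := by
      by_contra hcon
      push Not at hcon
      exact h2 (funext hcon)
    exact hs (t, a, j) hj
  · intro φ n
    have key : ∀ {L' : ℕ} (d : Tr T A L' → ZMod 2) (m : ℕ), wT d φ m =
        ∑ t : Fin (T + 1), ∑ a : Fin (A + 1), ∑ i : Fin (L' + 1),
          d (t, a, i) * φ t (2 ^ (a : ℕ) * m + i) := by
      intro L' d m
      unfold wT
      rw [Fintype.sum_prod_type]
      refine Finset.sum_congr rfl fun t _ => ?_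
      rw [Fintype.sum_prod_type]
    rw [key, key, key, ← Finset.sum_add_distrib]
    refine Finset.sum_congr rfl fun t _ => ?_
    rw [← Finset.sum_add_distrib]
    refine Finset.sum_congr rfl fun a _ => ?_
    rw [hc'2 t a (φ t) (2 ^ (a : ℕ) * n), mul_add, mul_add]

/-- **joint patterns of several multipartition functions against bounded-memory predictors** -/
theorem mainT (τ b T A L R Q K : ℕ) :
    ∃ X0 : ℕ, ∀ (c : Tr T A L → ZMod 2), c ≠ 0 → Supp τ c → ∀ v : Fin R → ℕ → ZMod 2,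
      (∀ z, OnePass Q (v z)) → ∀ (Φ : (Fin R → ZMod 2) → ZMod 2) (ρ : ℕ) (κ : ZMod 2) (x : ℕ),
      X0 ≤ x →
        Real.sqrt x * (Real.log (Real.log x)) ^ K / Real.log x ≤
          (((range (x + 1)).filter fun n => n % 2 ^ b = ρ % 2 ^ b ∧
            wT c (fun t k => coeff k (Ft t)) n + Φ (fun z => v z n) = κ).card : ℝ) := by
  classical
  set U := Fin R → Fin Q ⊕ (Fin Q → ZMod 2) with hU
  set k := b + Fintype.card U with hk
  have h1 : ∀ c' : Tr T A (2 ^ A * 2 ^ k + L) → ZMod 2, ∃ X0 : ℕ, c' ≠ 0 → Supp τ c' →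
      ∀ x : ℕ, X0 ≤ x → Real.sqrt x * (Real.log (Real.log x)) ^ (K + 1) / Real.log x ≤
      ((valsT c' (2 ^ k) 0 x).card : ℝ) := by
    intro c'
    by_cases hc' : c' = 0
    · exact ⟨0, fun h => absurd hc' h⟩
    · by_cases hs : Supp τ c'
      · obtain ⟨X0, hX0⟩ := joint_count τ k (K + 1) c' hc' hs 0
        exact ⟨X0, fun _ _ => hX0⟩
      · exact ⟨0, fun _ h => absurd h hs⟩
  choose X0 hX0 using h1
  obtain ⟨X1, hX1⟩ := ev_absorb K ((2 ^ k + 1 : ℕ) : ℝ)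
  refine ⟨max (Finset.univ.sup X0) X1, fun c hc hs v hv Φ ρ κ x hx => ?_⟩
  rw [max_le_iff] at hx
  choose σ hσ using fun z => (hv z).types k
  have hcard : Fintype.card U < Fintype.card (Fin (2 ^ Fintype.card U)) := by
    rw [Fintype.card_fin]
    exact Nat.lt_two_pow_self
  obtain ⟨i, j, hij, e⟩ := Fintype.exists_ne_map_eq_of_card_lt
    (fun i : Fin (2 ^ Fintype.card U) => (fun z => σ z (ρ % 2 ^ b + 2 ^ b * (i : ℕ)) : U)) hcard
  have hb : 0 < 2 ^ b := by positivity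
  have hlt : ∀ i : Fin (2 ^ Fintype.card U), ρ % 2 ^ b + 2 ^ b * (i : ℕ) < 2 ^ k := by
    intro i
    have h1 := Nat.mod_lt ρ hb
    have h2 := i.2
    have h3 : 2 ^ k = 2 ^ b * 2 ^ Fintype.card U := by rw [hk, pow_add]
    rw [h3]
    calc ρ % 2 ^ b + 2 ^ b * (i : ℕ) < 2 ^ b + 2 ^ b * (i : ℕ) := by omega
      _ = 2 ^ b * ((i : ℕ) + 1) := by ring
      _ ≤ 2 ^ b * 2 ^ Fintype.card U := Nat.mul_le_mul_left _ h2
  have hmod : ∀ i : ℕ, (ρ % 2 ^ b + 2 ^ b * i) % 2 ^ b = ρ % 2 ^ b := by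
    intro i
    rw [Nat.add_mul_mod_self_left, Nat.mod_mod]
  have hne : ρ % 2 ^ b + 2 ^ b * (i : ℕ) ≠ ρ % 2 ^ b + 2 ^ b * (j : ℕ) := by
    intro h
    apply hij
    have h2 : 2 ^ b * (i : ℕ) = 2 ^ b * (j : ℕ) := by omega
    exact Fin.ext (Nat.eq_of_mul_eq_mul_left hb h2)
  obtain ⟨c', hc'0, hc's, hc'⟩ := exists_diffT τ c hc hs k _ _ (hlt i) (hlt j) hne
  have h2 := hX0 c' hc'0 hc's x ((Finset.le_sup (mem_univ c')).trans hx.1)
  have h3 := count_pair' (wT c (fun t k => coeff k (Ft t))) (wT c' (fun t k => coeff k (Ft t)))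
    (2 ^ k) (2 ^ b) _ _ (pow_dvd_pow 2 (by omega)) (hlt i) (hlt j) ρ (hmod _) (hmod _)
    (fun n => hc' _ _) (fun n => Φ fun z => v z n) (fun n hn => by
      have : ∀ z, v z (2 ^ k * n + (ρ % 2 ^ b + 2 ^ b * (i : ℕ))) =
          v z (2 ^ k * n + (ρ % 2 ^ b + 2 ^ b * (j : ℕ))) := fun z =>
        hσ z _ _ (hlt i) (hlt j) (congrFun e z) n hn
      simp only [this]) κ x
  apply hX1 x hx.2
  refine h2.trans ?_
  have h4 : (valsT c' (2 ^ k) 0 x).card =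
      ((range (x + 1)).filter fun n => n % 2 ^ k = 0 % 2 ^ k ∧
        wT c' (fun t k => coeff k (Ft t)) n = 1).card := by
    unfold valsT
    congr 1
  rw [h4]
  exact_mod_cast h3

end Pool.Agent.L7h67.MP
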